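import Pool.Agent.Y506.PV.Stm

/-!
# Project PV: homogeneous sums of ridge functions (S_PHI)
-/

set_option autoImplicit false

namespace Pool.Agent.Y363.PV

open MeasureTheory Set Filter Topology
open scoped ENNReal InnerProductSpace
open Pool.Agent.W695.KH (Eu EU EV VV Sm Pot Uu)
open Pool.Agent.Y506.RG (EW VW Star LC1 GD Adm)
open Pool.Agent.Y506.PV

theorem f_conv {p : ℝ} (hp : 1 ≤ p) (x y t : ℝ) (h0 : 0 < t) (h1 : t < 1) :
    max ((1 - t) * x + t * y) 0 ^ p ≤ (1 - t) * max x 0 ^ p + t * max y 0 ^ p := by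
  have hc := (convexOn_rpow hp).2 (show max x 0 ∈ Ici (0 : ℝ) from le_max_right x 0)
    (show max y 0 ∈ Ici (0 : ℝ) from le_max_right y 0) (show 0 ≤ 1 - t by linarith) h0.le
    (by ring)
  simp only [smul_eq_mul] at hc
  refine le_trans (Real.rpow_le_rpow (le_max_right _ _) (max_le ?_ ?_) (by linarith)) hc
  · have h2 := mul_le_mul_of_nonneg_left (le_max_left x 0) (by linarith : (0 : ℝ) ≤ 1 - t)
    have h3 := mul_le_mul_of_nonneg_left (le_max_left y 0) h0.le
    linarith
  · have h2 := mul_nonneg (by linarith : (0 : ℝ) ≤ 1 - t) (le_max_right x 0)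
    have h3 := mul_nonneg h0.le (le_max_right y 0)
    linarith

theorem one_conv {p : ℝ} (hp : 1 ≤ p) (a : ℝ≥0∞) (x y t : ℝ) (h0 : 0 < t) (h1 : t < 1) :
    a * ENNReal.ofReal (max ((1 - t) * x + t * y) 0 ^ p) ≤
      ENNReal.ofReal (1 - t) * (a * ENNReal.ofReal (max x 0 ^ p)) +
        ENNReal.ofReal t * (a * ENNReal.ofReal (max y 0 ^ p)) := by
  have hx : 0 ≤ max x 0 ^ p := Real.rpow_nonneg (le_max_right _ _) _
  have hy : 0 ≤ max y 0 ^ p := Real.rpow_nonneg (le_max_right _ _) _
  calc a * ENNReal.ofReal (max ((1 - t) * x + t * y) 0 ^ p)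
      ≤ a * ENNReal.ofReal ((1 - t) * max x 0 ^ p + t * max y 0 ^ p) := by
        gcongr
        exact f_conv hp x y t h0 h1
    _ = _ := by
        rw [ENNReal.ofReal_add (mul_nonneg (by linarith) hx) (mul_nonneg h0.le hy),
          ENNReal.ofReal_mul (by linarith), ENNReal.ofReal_mul h0.le, mul_add,
          mul_left_comm, mul_left_comm a (ENNReal.ofReal t)]

theorem phi_conv {p : ℝ} (hp : 1 ≤ p) (a b : ℝ≥0∞) (x y t : ℝ) (h0 : 0 < t) (h1 : t < 1) :
    phi p a b ((1 - t) * x + t * y) ≤
      ENNReal.ofReal (1 - t) * phi p a b x + ENNReal.ofReal t * phi p a b y := by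
  unfold phi
  have h2 := one_conv hp a x y t h0 h1
  have h3 := one_conv hp b (-x) (-y) t h0 h1
  have e : -((1 - t) * x + t * y) = (1 - t) * -x + t * -y := by ring
  rw [e]
  refine (add_le_add h2 h3).trans (le_of_eq ?_)
  ring

theorem phi_zero {p : ℝ} (hp : 1 ≤ p) (a b : ℝ≥0∞) : phi p a b 0 = 0 := by
  unfold phi
  have h : (0 : ℝ) ^ p = 0 := Real.zero_rpow (by linarith)
  simp [h]

theorem phi_meas (p : ℝ) (a b : ℝ≥0∞) : Measurable (phi p a b) := by
  unfold phi
  refine Measurable.add ?_ ?_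
  · exact (ENNReal.measurable_ofReal.comp
      ((measurable_id.max measurable_const).pow_const p)).const_mul a
  · exact (ENNReal.measurable_ofReal.comp
      ((measurable_id.neg.max measurable_const).pow_const p)).const_mul b

theorem phi_hom {p : ℝ} (a b : ℝ≥0∞) (r s : ℝ) (hr : 0 < r) :
    phi p a b (r * s) = ENNReal.ofReal (r ^ p) * phi p a b s := by
  have key : ∀ u : ℝ, ENNReal.ofReal (max (r * u) 0 ^ p) =
      ENNReal.ofReal (r ^ p) * ENNReal.ofReal (max u 0 ^ p) := by
    intro u
    have e : max (r * u) 0 = r * max u 0 := by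
      rw [mul_max_of_nonneg _ _ hr.le, mul_zero]
    rw [e, Real.mul_rpow hr.le (le_max_right _ _), ENNReal.ofReal_mul (Real.rpow_nonneg hr.le _)]
  unfold phi
  have e2 : -(r * s) = r * (-s) := by ring
  rw [e2, key, key]
  ring

theorem one_lsc {p : ℝ} (hp : 1 ≤ p) (a : ℝ≥0∞) :
    LowerSemicontinuous fun s : ℝ => a * ENNReal.ofReal (max s 0 ^ p) := by
  have hc : Continuous fun s : ℝ => ENNReal.ofReal (max s 0 ^ p) :=
    ENNReal.continuous_ofReal.comp
      ((continuous_id.max continuous_const).rpow_const fun _ => Or.inr (by linarith))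
  have hfin : ∀ c : ℝ≥0∞, c ≠ ⊤ →
      LowerSemicontinuous fun s : ℝ => c * ENNReal.ofReal (max s 0 ^ p) := fun c hc' =>
    ((ENNReal.continuous_const_mul hc').comp hc).lowerSemicontinuous
  by_cases ha : a = ⊤
  · subst ha
    have e : (fun s : ℝ => (⊤ : ℝ≥0∞) * ENNReal.ofReal (max s 0 ^ p)) =
        fun s : ℝ => ⨆ n : ℕ, (n : ℝ≥0∞) * ENNReal.ofReal (max s 0 ^ p) := by
      funext s
      rw [← ENNReal.iSup_mul, ENNReal.iSup_natCast]
    rw [e]
    exact lowerSemicontinuous_iSup fun n => hfin n (ENNReal.natCast_ne_top n)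
  · exact hfin a ha

theorem phi_lsc {p : ℝ} (hp : 1 ≤ p) (a b : ℝ≥0∞) : LowerSemicontinuous (phi p a b) := by
  unfold phi
  refine LowerSemicontinuous.add (one_lsc hp a) ?_
  exact LowerSemicontinuous.comp (f := fun s : ℝ => b * ENNReal.ofReal (max s 0 ^ p))
    (g := fun s : ℝ => -s) (one_lsc hp b) continuous_neg

theorem lc_hphi {p : ℝ} (hp : 1 ≤ p) (a b : ℝ≥0∞) : LC1 (hphi p a b) := by
  refine ⟨fun s => ?_, ?_, fun x y t h0 h1 => ?_⟩
  · unfold hphi
    split_ifs
    · exact le_rfl
    · exact (Real.exp_pos _).le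
  · unfold hphi
    refine Measurable.ite ?_ measurable_const ?_
    · exact (phi_meas p a b) (measurableSet_singleton ⊤)
    · exact Real.measurable_exp.comp (phi_meas p a b).ennreal_toReal.neg
  · have h3 := phi_conv hp a b x y t h0 h1
    have hn : 0 ≤ hphi p a b ((1 - t) * x + t * y) := by
      unfold hphi
      split_ifs
      · exact le_rfl
      · exact (Real.exp_pos _).le
    by_cases hx : phi p a b x = ⊤
    · have e : hphi p a b x = 0 := if_pos hx
      rw [e, Real.zero_rpow (by linarith), zero_mul]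
      exact hn
    by_cases hy : phi p a b y = ⊤
    · have e : hphi p a b y = 0 := if_pos hy
      rw [e, Real.zero_rpow (by linarith), mul_zero]
      exact hn
    have h4 : ENNReal.ofReal (1 - t) * phi p a b x ≠ ⊤ :=
      ENNReal.mul_ne_top ENNReal.ofReal_ne_top hx
    have h5 : ENNReal.ofReal t * phi p a b y ≠ ⊤ :=
      ENNReal.mul_ne_top ENNReal.ofReal_ne_top hy
    have hz : phi p a b ((1 - t) * x + t * y) ≠ ⊤ :=
      ne_top_of_le_ne_top (ENNReal.add_ne_top.2 ⟨h4, h5⟩) h3
    have e1 : hphi p a b x = Real.exp (-(phi p a b x).toReal) := if_neg hx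
    have e2 : hphi p a b y = Real.exp (-(phi p a b y).toReal) := if_neg hy
    have e3 : hphi p a b ((1 - t) * x + t * y) =
        Real.exp (-(phi p a b ((1 - t) * x + t * y)).toReal) := if_neg hz
    rw [e1, e2, e3, ← Real.exp_mul, ← Real.exp_mul, ← Real.exp_add]
    apply Real.exp_le_exp.2
    have h6 := ENNReal.toReal_mono (ENNReal.add_ne_top.2 ⟨h4, h5⟩) h3
    rw [ENNReal.toReal_add h4 h5, ENNReal.toReal_mul, ENNReal.toReal_mul,
      ENNReal.toReal_ofReal (by linarith), ENNReal.toReal_ofReal h0.le] at h6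
    linarith

theorem PhS_conv {n N : ℕ} {p : ℝ} (hp : 1 ≤ p) (v : Fin N → Eu (Fin n)) (a b : Fin N → ℝ≥0∞)
    (x y : Eu (Fin n)) (t : ℝ) (h0 : 0 < t) (h1 : t < 1) :
    PhS p v a b ((1 - t) • x + t • y) ≤
      ENNReal.ofReal (1 - t) * PhS p v a b x + ENNReal.ofReal t * PhS p v a b y := by
  unfold PhS
  rw [Finset.mul_sum, Finset.mul_sum, ← Finset.sum_add_distrib]
  refine Finset.sum_le_sum fun i _ => ?_
  rw [inner_add_right, real_inner_smul_right, real_inner_smul_right]
  exact phi_conv hp _ _ _ _ t h0 h1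

theorem phis : S_PHI := by
  intro p hp
  refine ⟨lc_hphi hp, fun n N v a b => ⟨fun x => ?_, ?_, ?_, fun hbd hint => ⟨⟨?_, ?_, hbd, ?_⟩, ?_⟩⟩⟩
  · by_cases h : ∃ i, phi p (a i) (b i) ⟪v i, x⟫_ℝ = ⊤
    · obtain ⟨i, hi⟩ := h
      have h1 : PhS p v a b x = ⊤ := by
        unfold PhS
        exact ENNReal.sum_eq_top.2 ⟨i, Finset.mem_univ i, hi⟩
      have h2 : wPhi (PhS p v a b) x = 0 := if_pos h1
      rw [h2]
      refine (Finset.prod_eq_zero (Finset.mem_univ i) ?_).symm
      exact if_pos hi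
    · push Not at h
      have h1 : PhS p v a b x ≠ ⊤ := by
        unfold PhS
        exact ENNReal.sum_ne_top.2 fun i _ => h i
      have h2 : wPhi (PhS p v a b) x = Real.exp (-(PhS p v a b x).toReal) := if_neg h1
      have h3 : (PhS p v a b x).toReal = ∑ i, (phi p (a i) (b i) ⟪v i, x⟫_ℝ).toReal := by
        unfold PhS
        exact ENNReal.toReal_sum fun i _ => h i
      rw [h2, h3, ← Finset.sum_neg_distrib, Real.exp_sum]
      refine Finset.prod_congr rfl fun i _ => ?_
      exact (if_neg (h i)).symm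
  · have h1 : LowerSemicontinuous (PhS p v a b) := by
      have h2 : LowerSemicontinuous fun x : Eu (Fin n) => ∑ i, phi p (a i) (b i) ⟪v i, x⟫_ℝ :=
        lowerSemicontinuous_sum fun i _ =>
          LowerSemicontinuous.comp (f := phi p (a i) (b i)) (g := fun x : Eu (Fin n) => ⟪v i, x⟫_ℝ)
            (phi_lsc hp (a i) (b i)) (continuous_const.inner continuous_id)
      exact h2
    exact h1.isClosed_preimage 1
  · intro x hx y hy s t hs ht hst
    rcases hs.eq_or_lt with h | hs'
    · have e : t = 1 := by linarith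
      rw [← h, e, zero_smul, one_smul, zero_add]
      exact hy
    rcases ht.eq_or_lt with h | ht'
    · have e : s = 1 := by linarith
      rw [← h, e, zero_smul, one_smul, add_zero]
      exact hx
    have e : s = 1 - t := by linarith
    rw [e]
    refine (PhS_conv hp v a b x y t ht' (by linarith)).trans ?_
    calc ENNReal.ofReal (1 - t) * PhS p v a b x + ENNReal.ofReal t * PhS p v a b y
        ≤ ENNReal.ofReal (1 - t) * 1 + ENNReal.ofReal t * 1 := by
          gcongr
          · exact hx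
          · exact hy
      _ = 1 := by
          rw [mul_one, mul_one, ← ENNReal.ofReal_add (by linarith) ht, sub_add_cancel,
            ENNReal.ofReal_one]
  · unfold PhS
    exact Finset.measurable_sum _ fun i _ =>
      (phi_meas p (a i) (b i)).comp (measurable_const.inner measurable_id)
  · intro r x hr
    unfold PhS
    rw [Finset.mul_sum]
    refine Finset.sum_congr rfl fun i _ => ?_
    rw [real_inner_smul_right]
    exact phi_hom (a i) (b i) r _ hr
  · exact (isOpen_interior.measure_pos volume hint).trans_le (measure_mono interior_subset)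
  · intro x hx
    by_contra hne
    obtain ⟨R, hR⟩ := hbd.exists_norm_le
    have hxn : 0 < ‖x‖ := norm_pos_iff.2 hne
    have h1 : ((|R| + 1) / ‖x‖) • x ∈ {x | PhS p v a b x ≤ 1} := by
      have h2 : PhS p v a b (((|R| + 1) / ‖x‖) • x) = 0 := by
        unfold PhS
        refine Finset.sum_eq_zero fun i _ => ?_
        rw [real_inner_smul_right, hx i, mul_zero]
        exact phi_zero hp _ _
      show PhS p v a b (((|R| + 1) / ‖x‖) • x) ≤ 1
      rw [h2]
      exact zero_le_one
    have h3 := hR _ h1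
    rw [norm_smul, norm_div, norm_norm, div_mul_cancel₀ _ hxn.ne', Real.norm_eq_abs,
      abs_of_pos (by positivity)] at h3
    have h4 := le_abs_self R
    linarith

end Pool.Agent.Y363.PV
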